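import Pool.Agent.helper87.FM.Spec

/-!
# Row `fm:BGK`: the big points
-/

set_option autoImplicit false

namespace Pool.Agent.FM

open Polynomial Matrix Pool.Agent.helper42.NS Pool.Agent.FS

/-- counting fibre by fibre -/
theorem BGK_fib {α β : Type} [Fintype α] [Fintype β] (Z : Set (α × β)) (c d : ℕ)
    (h : ∀ a, Set.ncard {b : β | (a, b) ∈ Z} * c ≤ d) :
    Z.ncard * c ≤ Fintype.card α * d := by
  classical
  have hZf : Z.Finite := Set.toFinite _
  have e1 : Z.ncard = hZf.toFinset.card := Set.ncard_eq_toFinset_card Z hZf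
  have e3 : hZf.toFinset.card = ∑ a ∈ (Finset.univ : Finset α), (hZf.toFinset.filter fun x => x.1 = a).card :=
    Finset.card_eq_sum_card_fiberwise fun x _ => by
      rw [Finset.mem_coe]
      exact Finset.mem_univ _
  rw [e1, e3, Finset.sum_mul, ← Finset.card_univ, ← smul_eq_mul (Finset.univ.card), ← Finset.sum_const]
  refine Finset.sum_le_sum fun a _ => ?_
  refine le_trans (Nat.mul_le_mul_right c ?_) (h a)
  have e4 : Set.ncard {b : β | (a, b) ∈ Z} = (Finset.univ.filter fun b : β => (a, b) ∈ Z).card := by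
    rw [← Set.ncard_coe_finset]
    congr 1
    ext b
    simp
  rw [e4]
  refine Finset.card_le_card_of_injOn (fun x => x.2) ?_ ?_
  · intro x hx
    rw [Finset.mem_coe, Finset.mem_filter, Set.Finite.mem_toFinset] at hx
    rw [Finset.mem_coe, Finset.mem_filter]
    refine ⟨Finset.mem_univ _, ?_⟩
    rw [← hx.2]
    exact hx.1
  · intro x hx y hy hxy
    rw [Finset.mem_coe, Finset.mem_filter] at hx hy
    exact Prod.ext (hx.2.trans hy.2.symm) hxy

/-- the second part of the tuple, for a fixed first part without bad points above `p` -/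
theorem BGK_one {a m p : ℕ} (ha : 40 ≤ a) (hp : p.Prime) (H : Matrix (Fin m) (Fin m) ℤ)
    (hm : m ≤ 2 ^ (10 * a + 10)) (hG : IsGr H) (hR1 : R1 a H) (hR2 : R2 a H)
    (hbig : ∀ P : Pt, 2 ^ a ≤ qP P → crk P H ≤ 81) (B₁ : Fin 36 → Fin m → Bool)
    (hB₁ : ∀ P : Pt, Above p P → ¬ Bad P H B₁) :
    Set.ncard {B₂ : Fin 140 → Fin m → Bool | ∃ P : Pt, 2 ^ a ≤ qP P ∧ Bad P H B₁ ∧ Bad P H B₂} *
      2 ^ (60 * (a - 1)) ≤ 2 ^ (40 * a + 41) * (2 ^ 140 * 2 ^ (m * 140)) := by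
  classical
  have h9 := T_PTQ m 36 (10 * a + 10) p H B₁ hp hG hm hB₁
  have hSfin : {P : Pt | Bad P H B₁}.Finite := by
    by_contra hinf
    obtain ⟨t, ht1, ht2⟩ := (Set.not_finite.1 hinf).exists_subset_card_eq
      (2 ^ (4 * (10 * a + 10) + 1) + 1)
    have := h9 t (fun P hP => ht1 hP)
    omega
  set S : Finset Pt := hSfin.toFinset with hS
  have hScard : S.card ≤ 2 ^ (40 * a + 41) := by
    have := h9 S (fun P hP => (Set.Finite.mem_toFinset hSfin).1 hP)
    rwa [show 4 * (10 * a + 10) + 1 = 40 * a + 41 by ring] at this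
  have hun : (Finset.univ.filter fun B₂ : Fin 140 → Fin m → Bool =>
        ∃ P : Pt, 2 ^ a ≤ qP P ∧ Bad P H B₁ ∧ Bad P H B₂) ⊆
      (S.filter fun P => 2 ^ a ≤ qP P).biUnion fun P => Finset.univ.filter fun B => Bad P H B := by
    intro B hB
    obtain ⟨P, hq, h1, h2⟩ := (Finset.mem_filter.1 hB).2
    exact Finset.mem_biUnion.2 ⟨P, Finset.mem_filter.2 ⟨(Set.Finite.mem_toFinset hSfin).2 h1, hq⟩,
      Finset.mem_filter.2 ⟨Finset.mem_univ _, h2⟩⟩
  have hc1 := (Finset.card_le_card hun).trans Finset.card_biUnion_le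
  rw [GE2_ncard]
  refine (Nat.mul_le_mul_right _ hc1).trans ?_
  rw [Finset.sum_mul]
  calc _ ≤ ∑ P ∈ S.filter (fun P => 2 ^ a ≤ qP P), 2 ^ 140 * 2 ^ (m * 140) := by
        refine Finset.sum_le_sum fun P hP => ?_
        have hq := (Finset.mem_filter.1 hP).2
        have := GE2_big T_FBB KI2 ha P H hR1 hR2 hq (hbig P hq)
        rwa [GE2_ncard] at this
    _ = (S.filter (fun P => 2 ^ a ≤ qP P)).card * (2 ^ 140 * 2 ^ (m * 140)) := by
        rw [Finset.sum_const, smul_eq_mul]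
    _ ≤ 2 ^ (40 * a + 41) * (2 ^ 140 * 2 ^ (m * 140)) :=
        Nat.mul_le_mul_right _ ((Finset.card_filter_le _ _).trans hScard)

theorem BGK (h1 : EXC_stmt) : BGK_stmt := by
  classical
  intro a m p H ha hp hpa hm hG hR1 hR2 hA hbig
  have hsym : ∀ i j, H i j = H j i := hG.2.2
  -- the first parts with a bad point above `p`
  set X : Set (Fin 36 → Fin m → Bool) := {B | ∃ P : Pt, Above p P ∧ Bad P H B} with hX
  have hX1 : X.ncard * 2 ^ (3 * a) ≤ 2 ^ 46 * 2 ^ (36 * m) :=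
    h1 a m p H (by omega) hp hpa hsym hR1 hm hA
  set Z : Set ((Fin 36 → Fin m → Bool) × (Fin 140 → Fin m → Bool)) :=
    {B | B.1 ∉ X ∧ ∃ P : Pt, 2 ^ a ≤ qP P ∧ Bad P H B.1 ∧ Bad P H B.2} with hZ
  have hc36 : Fintype.card (Fin 36 → Fin m → Bool) = 2 ^ (36 * m) := by
    rw [Fintype.card_fun, Fintype.card_fun, Fintype.card_fin, Fintype.card_fin,
      Fintype.card_bool, ← pow_mul, mul_comm]
  have hc140 : Nat.card (Fin 140 → Fin m → Bool) = 2 ^ (140 * m) := by
    rw [Nat.card_eq_fintype_card, Fintype.card_fun, Fintype.card_fun, Fintype.card_fin,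
      Fintype.card_fin, Fintype.card_bool, ← pow_mul, mul_comm]
  have hZ1 : Z.ncard * 2 ^ (60 * (a - 1)) ≤
      2 ^ (36 * m) * (2 ^ (40 * a + 41) * (2 ^ 140 * 2 ^ (m * 140))) := by
    rw [← hc36]
    refine BGK_fib Z _ _ fun B₁ => ?_
    by_cases hB₁ : B₁ ∈ X
    · have e : {B₂ : Fin 140 → Fin m → Bool | (B₁, B₂) ∈ Z} = ∅ := by
        rw [Set.eq_empty_iff_forall_notMem]
        rintro B₂ ⟨h, -⟩
        exact h hB₁
      rw [e, Set.ncard_empty, zero_mul]
      exact Nat.zero_le _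
    · have h2 : ∀ P : Pt, Above p P → ¬ Bad P H B₁ := fun P hP hB => hB₁ ⟨P, hP, hB⟩
      refine le_trans (Nat.mul_le_mul_right _ ?_) (BGK_one ha hp H hm hG hR1 hR2 hbig B₁ h2)
      refine Set.ncard_le_ncard ?_ (Set.toFinite _)
      rintro B₂ ⟨-, h⟩
      exact h
  -- the whole set
  have hT : Set.ncard {B : Fin 176 → Fin m → Bool | ∃ P : Pt, 2 ^ a ≤ qP P ∧ Bad P H B} ≤
      X.ncard * 2 ^ (140 * m) + Z.ncard := by
    have e1 : (X ×ˢ (Set.univ : Set (Fin 140 → Fin m → Bool))).ncard = X.ncard * 2 ^ (140 * m) := by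
      rw [Set.ncard_prod, Set.ncard_univ, hc140]
    rw [← e1]
    refine le_trans ?_ (Set.ncard_union_le _ _)
    refine Set.ncard_le_ncard_of_injOn
      (fun B : Fin (36 + 140) → Fin m → Bool =>
        (fun i : Fin 36 => B (Fin.castAdd 140 i), fun i : Fin 140 => B (Fin.natAdd 36 i))) ?_ ?_
      (Set.toFinite _)
    · rintro B ⟨P, hq, u, huE, hu0, hB⟩
      have hb1 : Bad P H (fun i : Fin 36 => (B : Fin (36 + 140) → Fin m → Bool) (Fin.castAdd 140 i)) :=
        ⟨u, huE, hu0, fun i => hB _⟩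
      have hb2 : Bad P H (fun i : Fin 140 => (B : Fin (36 + 140) → Fin m → Bool) (Fin.natAdd 36 i)) :=
        ⟨u, huE, hu0, fun i => hB _⟩
      by_cases hx : (fun i : Fin 36 => (B : Fin (36 + 140) → Fin m → Bool) (Fin.castAdd 140 i)) ∈ X
      · left
        exact ⟨hx, Set.mem_univ _⟩
      · right
        exact ⟨hx, P, hq, hb1, hb2⟩
    · intro B _ B' _ h
      have h1 := congrArg Prod.fst h
      have h2 := congrArg Prod.snd h
      funext i
      refine Fin.addCases (m := 36) (n := 140)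
        (motive := fun i => (B : Fin (36 + 140) → Fin m → Bool) i = B' i) (fun i => ?_) (fun i => ?_) i
      · exact congrFun h1 i
      · exact congrFun h2 i
  -- numbers
  refine (Nat.mul_le_mul_right _ hT).trans ?_
  rw [add_mul]
  have n1 : 2 * (X.ncard * 2 ^ (140 * m) * 2 ^ a) ≤ 2 ^ (176 * m) := by
    have e1 : 2 ^ (3 * a) = 2 ^ 46 * (2 ^ (2 * a - 46) * 2 ^ a) := by
      rw [← pow_add, ← pow_add]
      congr 1
      omega
    rw [e1] at hX1
    have e2 : X.ncard * (2 ^ (2 * a - 46) * 2 ^ a) ≤ 2 ^ (36 * m) := by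
      have e0 : 2 ^ 46 * (X.ncard * (2 ^ (2 * a - 46) * 2 ^ a)) ≤ 2 ^ 46 * 2 ^ (36 * m) := by
        rw [mul_left_comm]
        exact hX1
      exact Nat.le_of_mul_le_mul_left e0 (by positivity)
    have e3 : 2 ^ 1 ≤ 2 ^ (2 * a - 46) := Nat.pow_le_pow_right (by norm_num) (by omega)
    have e4 : 2 ^ (176 * m) = 2 ^ (36 * m) * 2 ^ (140 * m) := by
      rw [← pow_add]
      congr 1
      ring
    rw [e4]
    calc 2 * (X.ncard * 2 ^ (140 * m) * 2 ^ a) = X.ncard * (2 ^ 1 * 2 ^ a) * 2 ^ (140 * m) := by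
          generalize 2 ^ (140 * m) = y
          generalize 2 ^ a = z
          ring
      _ ≤ X.ncard * (2 ^ (2 * a - 46) * 2 ^ a) * 2 ^ (140 * m) :=
          Nat.mul_le_mul_right _ (Nat.mul_le_mul_left _ (Nat.mul_le_mul_right _ e3))
      _ ≤ 2 ^ (36 * m) * 2 ^ (140 * m) := Nat.mul_le_mul_right _ e2
  have n2 : 2 * (Z.ncard * 2 ^ a) ≤ 2 ^ (176 * m) := by
    have e1 : 2 ^ (60 * (a - 1)) = 2 ^ (40 * a + 181) * (2 ^ (19 * a - 241) * 2 ^ a) := by
      rw [← pow_add, ← pow_add]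
      congr 1
      omega
    have e2 : 2 ^ (36 * m) * (2 ^ (40 * a + 41) * (2 ^ 140 * 2 ^ (m * 140))) =
        2 ^ (40 * a + 181) * 2 ^ (176 * m) := by
      rw [← pow_add, ← pow_add, ← pow_add, ← pow_add]
      congr 1
      ring
    rw [e1, e2] at hZ1
    have e3 : Z.ncard * (2 ^ (19 * a - 241) * 2 ^ a) ≤ 2 ^ (176 * m) := by
      have e0 : 2 ^ (40 * a + 181) * (Z.ncard * (2 ^ (19 * a - 241) * 2 ^ a)) ≤
          2 ^ (40 * a + 181) * 2 ^ (176 * m) := by
        rw [mul_left_comm]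
        exact hZ1
      exact Nat.le_of_mul_le_mul_left e0 (by positivity)
    have e4 : 2 ^ 1 ≤ 2 ^ (19 * a - 241) := Nat.pow_le_pow_right (by norm_num) (by omega)
    calc 2 * (Z.ncard * 2 ^ a) = Z.ncard * (2 ^ 1 * 2 ^ a) := by
          rw [pow_one]
          exact mul_left_comm _ _ _
      _ ≤ Z.ncard * (2 ^ (19 * a - 241) * 2 ^ a) :=
          Nat.mul_le_mul_left _ (Nat.mul_le_mul_right _ e4)
      _ ≤ _ := e3
  omega

end Pool.Agent.FM
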